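import Pool.Agent.Helper47.SN.SNdefs
import Pool.Agent.Helper47.SN.SN
import Pool.Agent.Helper73.RFn.MainF

/-!
# MP_c98eff_gt, n ≥ 4: pointwise δ-pinched metrics on the n-sphere do not collapse (δ > 1/4)

All smooth Riemannian metrics on `Sⁿ`, `n ≥ 4`, every pinching constant `δ > 1/4`. Definitions: see
`Pool/Agent/Helper47/SN/SNdefs.lean`. Proof by Ricci flow.
Sanity checks: `Pool/Agent/Helper47/SN/SNround.lean` (the round metric has sectional curvature `1`),
`Pool/Agent/Helper47/SN/SNsanity.lean` (every metric has exactly one normal form, the diameter is a finite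
supremum).
-/

set_option autoImplicit false

namespace Pool.Agent.Helper47.SN.Variant

open Pool.Agent.Helper47.SN

/-- For every `n ≥ 4` and every pinching constant `δ > 1/4` there is a positive `ε` with `vol ≥ ε diamⁿ` for all
smooth Riemannian metrics on the `n`-sphere which are pointwise strictly `δ`-pinched. -/
theorem result (n : ℕ) (δ : ℝ) (hn : 4 ≤ n) (hδ : 1 / 4 < δ) :
    ∃ ε : ℝ, 0 < ε ∧ ∀ M : RMetric n, (∀ x : EE n, ‖x‖ = 1 → PinchedAt δ M.G x) →
      ε * gdiam M.G ^ n ≤ gvol M.G :=
  sn Pool.Agent.Helper73.RFn.main n δ hn hδ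

end Pool.Agent.Helper47.SN.Variant
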